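import Pool.Agent.Helper46.Grid.Final

/-!
# Random grid diagrams

The definitions (braid words, closed braids up to Markov equivalence, rational Vassiliev
invariants) are in `Pool.Agent.Helper86.Vass.Defs`; grid diagrams and the passage from grid
diagrams to closed braids are in `Pool.Agent.Helper46.Grid.Defs`.
-/

namespace Pool.Agent.Results.MP_5f6b43_gt.RandomGrids

open VassBraid RandomGrid

/-- A pair `(c, r)` of permutations of `Fin (n + 1)` describes a grid diagram of a knot. All but a
fraction `C * (n + 1) ^ (-1/8)` of the `(n + 1)! ^ 2` pairs give a knot whose rational Vassiliev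
invariants of degree at most `2` are different from those of `K`, for every given `K`. -/
theorem result :
    (∀ (n : ℕ) (c r : Equiv.Perm (Fin (n + 1))), IsKnot (gridKnot c r)) ∧
    ∃ C : ℝ, ∀ (n : ℕ) (K : CBraid), 1 ≤ n →
      (({x : Equiv.Perm (Fin (n + 1)) × Equiv.Perm (Fin (n + 1)) |
          SameUpTo 2 (gridKnot x.1 x.2) K}.ncard : ℕ) : ℝ)
        ≤ C / ((n : ℝ) + 1) ^ (1 / 8 : ℝ) * ((n + 1).factorial : ℝ) ^ 2 :=
  ⟨isKnot_gridKnot, main⟩

end Pool.Agent.Results.MP_5f6b43_gt.RandomGrids
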